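import Pool.Agent.Q66.SH.Stm2

/-! Project SH, job LIN (helper21). -/

set_option autoImplicit false

open Filter Topology
open scoped ENNReal

namespace Pool.Agent.Q21.SH

open Pool.Agent.Q66.SH

lemma exists_unit_factor (c : ℂ) : ∃ u : ℂ, ‖u‖ = 1 ∧ c = (‖c‖ : ℂ) * u := by
  by_cases hc : c = 0
  · exact ⟨1, by simp, by simp [hc]⟩
  · have hn : (‖c‖ : ℂ) ≠ 0 := by
      exact_mod_cast norm_ne_zero_iff.2 hc
    refine ⟨c / (‖c‖ : ℂ), ?_, ?_⟩
    · rw [norm_div, Complex.norm_real, norm_norm, div_self (norm_ne_zero_iff.2 hc)]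
    · field_simp

section
variable {H : Type} [NormedAddCommGroup H] [InnerProductSpace ℂ H]

lemma orthonormal_unit_smul {f : ℕ → H} (hf : Orthonormal ℂ f) {u : ℂ} (hu : ‖u‖ = 1) :
    Orthonormal ℂ (fun j => u • f j) := by
  constructor
  · intro i
    rw [norm_smul, hu, hf.1 i, one_mul]
  · intro i j hij
    show inner ℂ (u • f i) (u • f j) = 0
    rw [inner_smul_left, inner_smul_right, hf.2 hij, mul_zero, mul_zero]

lemma hasSV_smul (c : ℂ) (T : H →L[ℂ] H) (s : ℕ → ℝ) (h : HasSV T s) :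
    HasSV (c • T) (fun j => ‖c‖ * s j) := by
  obtain ⟨hanti, hpos, hlim, e, f, he, hf, hsum⟩ := h
  obtain ⟨u, hu, hcu⟩ := exists_unit_factor c
  refine ⟨?_, ?_, ?_, e, fun j => u • f j, he, orthonormal_unit_smul hf hu, ?_⟩
  · intro i j hij
    exact mul_le_mul_of_nonneg_left (hanti hij) (norm_nonneg c)
  · intro j
    exact mul_nonneg (norm_nonneg c) (hpos j)
  · have := hlim.const_mul ‖c‖
    rwa [mul_zero] at this
  · intro x
    have h1 := (hsum x).const_smul c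
    have h2 : (fun j => (((‖c‖ * s j : ℝ) : ℂ) * inner ℂ (e j) x) • (u • f j)) =
        fun j => c • (((s j : ℂ) * inner ℂ (e j) x) • f j) := by
      funext j
      rw [smul_smul, smul_smul]
      congr 1
      conv_rhs => rw [hcu]
      push_cast
      ring
    rw [h2]
    exact h1

lemma inS_smul (p : ℝ≥0∞) (hp : p ≠ 0) (c : ℂ) (T : H →L[ℂ] H) (t : ℝ) (h : InS p T t) :
    InS p (c • T) (‖c‖ * t) := by
  obtain ⟨s, hs, hcase⟩ := h
  refine ⟨fun j => ‖c‖ * s j, hasSV_smul c T s hs, ?_⟩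
  have hpos := hs.2.1
  rcases hcase with ⟨hpi, ht⟩ | ⟨hpi, hsum, ht⟩
  · left
    exact ⟨hpi, by rw [ht]⟩
  · right
    have hr : 0 < p.toReal := ENNReal.toReal_pos hp hpi
    have h1 : (fun j => (‖c‖ * s j) ^ p.toReal) = fun j => ‖c‖ ^ p.toReal * s j ^ p.toReal := by
      funext j
      exact Real.mul_rpow (norm_nonneg c) (hpos j)
    refine ⟨hpi, ?_, ?_⟩
    · show Summable (fun j => (‖c‖ * s j) ^ p.toReal)
      rw [h1]
      exact hsum.mul_left _
    · show ‖c‖ * t = (∑' j, (‖c‖ * s j) ^ p.toReal) ^ (1 / p.toReal)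
      rw [h1, tsum_mul_left, Real.mul_rpow (Real.rpow_nonneg (norm_nonneg c) _)
        (tsum_nonneg fun j => Real.rpow_nonneg (hpos j) _), ← Real.rpow_mul (norm_nonneg c),
        mul_one_div_cancel hr.ne', Real.rpow_one, ht]

end

lemma add_rpow_le {x y r : ℝ} (hx : 0 ≤ x) (hy : 0 ≤ y) (hr : 0 < r) :
    (x + y) ^ r ≤ 2 ^ r * (x ^ r + y ^ r) := by
  have h2 : (0 : ℝ) ≤ 2 ^ r := Real.rpow_nonneg (by norm_num) r
  rcases le_total x y with h | h
  · calc (x + y) ^ r ≤ (2 * y) ^ r :=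
          Real.rpow_le_rpow (add_nonneg hx hy) (by linarith) hr.le
      _ = 2 ^ r * y ^ r := Real.mul_rpow (by norm_num) hy
      _ ≤ 2 ^ r * (x ^ r + y ^ r) :=
          mul_le_mul_of_nonneg_left (le_add_of_nonneg_left (Real.rpow_nonneg hx r)) h2
  · calc (x + y) ^ r ≤ (2 * x) ^ r :=
          Real.rpow_le_rpow (add_nonneg hx hy) (by linarith) hr.le
      _ = 2 ^ r * x ^ r := Real.mul_rpow (by norm_num) hx
      _ ≤ 2 ^ r * (x ^ r + y ^ r) :=
          mul_le_mul_of_nonneg_left (le_add_of_nonneg_right (Real.rpow_nonneg hy r)) h2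

lemma summable_of_weyl {s s₁ s₂ : ℕ → ℝ} {r : ℝ} (hr : 0 < r) (hs : Antitone s) (h0 : ∀ j, 0 ≤ s j)
    (h1 : ∀ j, 0 ≤ s₁ j) (h2 : ∀ j, 0 ≤ s₂ j) (hle : ∀ n, s (n + n) ≤ s₁ n + s₂ n)
    (hs1 : Summable fun j => s₁ j ^ r) (hs2 : Summable fun j => s₂ j ^ r) :
    Summable fun j => s j ^ r := by
  have hb : Summable fun n => 2 ^ r * (s₁ n ^ r + s₂ n ^ r) := (hs1.add hs2).mul_left _
  have he : Summable fun n => s (2 * n) ^ r := by
    refine Summable.of_nonneg_of_le (fun n => Real.rpow_nonneg (h0 _) r) (fun n => ?_) hb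
    calc s (2 * n) ^ r ≤ (s₁ n + s₂ n) ^ r := by
          refine Real.rpow_le_rpow (h0 _) ?_ hr.le
          rw [two_mul]
          exact hle n
      _ ≤ 2 ^ r * (s₁ n ^ r + s₂ n ^ r) := add_rpow_le (h1 n) (h2 n) hr
  have ho : Summable fun n => s (2 * n + 1) ^ r :=
    Summable.of_nonneg_of_le (fun n => Real.rpow_nonneg (h0 _) r)
      (fun n => Real.rpow_le_rpow (h0 _) (hs (Nat.le_succ _)) hr.le) he
  have hE : HasSum (fun k => (fun j => s j ^ r) (2 * k)) (∑' n, s (2 * n) ^ r) := he.hasSum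
  have hO : HasSum (fun k => (fun j => s j ^ r) (2 * k + 1)) (∑' n, s (2 * n + 1) ^ r) := ho.hasSum
  exact (HasSum.even_add_odd (f := fun j => s j ^ r) hE hO).summable

theorem t_LIN (hD : S_SVD) (hC : S_CPT) (hW : S_WEYL) (hN : S_NIN) : S_LIN := by
  intro H _ _ _ hfin p hp
  refine ⟨fun S T r t hS hT => ?_, fun c T t hT => inS_smul p hp c T t hT⟩
  obtain ⟨s₁, hs₁, hc₁⟩ := hS
  obtain ⟨s₂, hs₂, hc₂⟩ := hT
  obtain ⟨s, hs⟩ := hD H hfin (S + T) ((hC H S s₁ hs₁).add (hC H T s₂ hs₂))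
  by_cases hpi : p = ∞
  · exact ⟨s 0, s, hs, Or.inl ⟨hpi, rfl⟩⟩
  · have hsum1 : Summable fun j => s₁ j ^ p.toReal := by
      rcases hc₁ with h | h
      · exact absurd h.1 hpi
      · exact h.2.1
    have hsum2 : Summable fun j => s₂ j ^ p.toReal := by
      rcases hc₂ with h | h
      · exact absurd h.1 hpi
      · exact h.2.1
    have hle : ∀ n, s (n + n) ≤ s₁ n + s₂ n := by
      intro n
      have h := hW H n n S T
      rw [(hN H p hp (S + T)).1 s (n + n) hs, (hN H p hp S).1 s₁ n hs₁,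
        (hN H p hp T).1 s₂ n hs₂, ← ENNReal.ofReal_add (hs₁.2.1 n) (hs₂.2.1 n)] at h
      exact (ENNReal.ofReal_le_ofReal_iff (add_nonneg (hs₁.2.1 n) (hs₂.2.1 n))).1 h
    exact ⟨_, s, hs, Or.inr ⟨hpi, summable_of_weyl (ENNReal.toReal_pos hp hpi) hs.1 hs.2.1
      hs₁.2.1 hs₂.2.1 hle hsum1 hsum2, rfl⟩⟩

end Pool.Agent.Q21.SH
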